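import Mathlib

/-!
# Weakly compact perturbations of the identity and slice thickness indices

The Banach space `X = ℓ₁ ⊕₂ 𝕜` satisfies `W(X) ≥ 1` (because it is not reflexive), whereas
both slice indices vanish (the point `(0,1)` lies in slices, and the functional `(0,1)` lies in
weak-star slices, of arbitrarily small radius).
-/

namespace Pool.Agent.Results.MP_2c23da_an.WeakCompactIndex

open Set Filter Topology

section Defs

variable (𝕜 : Type*) [RCLike 𝕜] (X : Type*) [NormedAddCommGroup X] [NormedSpace 𝕜 X]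

/-- The slice `{x ∈ B_X : Re f(x) > 1 - α}`. -/
def slice {𝕜 : Type*} [RCLike 𝕜] {X : Type*} [NormedAddCommGroup X] [NormedSpace 𝕜 X]
    (f : StrongDual 𝕜 X) (α : ℝ) : Set X :=
  {x | ‖x‖ ≤ 1 ∧ 1 - α < RCLike.re (f x)}

/-- The weak-star slice `{y ∈ B_{X*} : Re y(x) > 1 - α}`. -/
def wslice {X : Type*} [NormedAddCommGroup X] [NormedSpace 𝕜 X] (x : X) (α : ℝ) :
    Set (StrongDual 𝕜 X) :=
  {y | ‖y‖ ≤ 1 ∧ 1 - α < RCLike.re (y x)}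

/-- The slice index of thickness `T^s(X)`. -/
noncomputable def Ts : ℝ :=
  sInf {r : ℝ | 0 < r ∧ ∃ x : X, ‖x‖ = 1 ∧ ∃ f : StrongDual 𝕜 X, ‖f‖ = 1 ∧
    ∃ α : ℝ, 0 < α ∧ slice f α ⊆ Metric.closedBall x r}

/-- The weak-star slice index of thickness `T^s_{w*}(X*)` of the dual of `X`. -/
noncomputable def Tsw : ℝ :=
  sInf {r : ℝ | 0 < r ∧ ∃ y : StrongDual 𝕜 X, ‖y‖ = 1 ∧ ∃ x : X, ‖x‖ = 1 ∧
    ∃ α : ℝ, 0 < α ∧ wslice 𝕜 x α ⊆ Metric.closedBall y r}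

/-- A bounded operator is weakly compact if the image of the closed unit ball is relatively
weakly compact. -/
def WeaklyCompact {𝕜 : Type*} [RCLike 𝕜] {X : Type*} [NormedAddCommGroup X] [NormedSpace 𝕜 X]
    (T : X →L[𝕜] X) : Prop :=
  IsCompact (closure (toWeakSpace 𝕜 X '' (T '' Metric.closedBall (0 : X) 1)))

/-- `W(X)`, the infimum of `‖T + I‖` over weakly compact `T` of norm one. -/
noncomputable def W : ℝ :=
  sInf {r : ℝ | ∃ T : X →L[𝕜] X, ‖T‖ = 1 ∧ WeaklyCompact T ∧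
    r = ‖T + ContinuousLinearMap.id 𝕜 X‖}

end Defs

section Index

variable {𝕜 : Type*} [RCLike 𝕜] {Y : Type*} [NormedAddCommGroup Y] [NormedSpace 𝕜 Y]

/-- The auxiliary space `Y ⊕₂ 𝕜`. -/
abbrev Z (𝕜 : Type*) [RCLike 𝕜] (Y : Type*) [NormedAddCommGroup Y] [NormedSpace 𝕜 Y] : Type _ :=
  WithLp 2 (Y × 𝕜)

variable (𝕜 Y) in
/-- The point `(0,1)`. -/
noncomputable def p : Z 𝕜 Y := WithLp.toLp 2 ((0 : Y), (1 : 𝕜))

lemma norm_p : ‖p 𝕜 Y‖ = 1 := by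
  unfold p
  simp

lemma zext {z w : Z 𝕜 Y} (h1 : z.fst = w.fst) (h2 : z.snd = w.snd) : z = w :=
  WithLp.ofLp_injective 2 (Prod.ext h1 h2)

lemma norm_sq (z : Z 𝕜 Y) : ‖z‖ ^ 2 = ‖z.fst‖ ^ 2 + ‖z.snd‖ ^ 2 :=
  WithLp.prod_norm_sq_eq_of_L2 z

variable (𝕜 Y) in
/-- The functional `(u,t) ↦ t`. -/
noncomputable def q : StrongDual 𝕜 (Z 𝕜 Y) := WithLp.sndL 2 𝕜 Y 𝕜

@[simp] lemma q_apply (z : Z 𝕜 Y) : q 𝕜 Y z = z.snd := rfl

lemma norm_q : ‖q 𝕜 Y‖ = 1 := by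
  refine le_antisymm (ContinuousLinearMap.opNorm_le_bound _ zero_le_one fun z => ?_) ?_
  · rw [q_apply, one_mul]
    exact WithLp.norm_snd_le _ z
  · have h := (q 𝕜 Y).le_opNorm (p 𝕜 Y)
    rw [norm_p, mul_one, q_apply] at h
    simpa [p] using h

lemma norm_sub_one_sq (t : 𝕜) : ‖t - 1‖ ^ 2 = ‖t‖ ^ 2 - 2 * RCLike.re t + 1 := by
  have h1 : ‖t - 1‖ ^ 2 = RCLike.normSq (t - 1) := (RCLike.normSq_eq_def' _).symm
  have h2 : ‖t‖ ^ 2 = RCLike.normSq t := (RCLike.normSq_eq_def' _).symm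
  rw [h1, h2, RCLike.normSq_apply, RCLike.normSq_apply]
  simp
  ring

lemma slice_small {r : ℝ} (hr : 0 < r) :
    slice (q 𝕜 Y) (r ^ 2 / 2) ⊆ Metric.closedBall (p 𝕜 Y) r := by
  intro z hz
  obtain ⟨hz1, hz2⟩ := hz
  rw [Metric.mem_closedBall, dist_eq_norm]
  refine le_of_sq_le_sq ?_ hr.le
  rw [norm_sq]
  have h3 : (z - p 𝕜 Y).fst = z.fst := by simp [p]
  have h4 : (z - p 𝕜 Y).snd = z.snd - 1 := by simp [p]
  rw [h3, h4, norm_sub_one_sq]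
  have h5 := norm_sq z
  have h6 : ‖z‖ ^ 2 ≤ 1 := by
    have := norm_nonneg z
    nlinarith
  rw [q_apply] at hz2
  linarith

lemma wslice_small {r : ℝ} (hr : 0 < r) (hr1 : r ≤ 1) :
    wslice 𝕜 (p 𝕜 Y) (r ^ 2 / 8) ⊆ Metric.closedBall (q 𝕜 Y) r := by
  intro φ hφ
  obtain ⟨h1, h2⟩ := hφ
  rw [Metric.mem_closedBall, dist_eq_norm]
  set s : 𝕜 := φ (p 𝕜 Y) with hs
  have hkey : ∀ u : Y, ‖u‖ ≤ 1 → ‖φ (WithLp.toLp 2 (u, (0 : 𝕜)))‖ ^ 2 + ‖s‖ ^ 2 ≤ 1 := by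
    intro u hu
    set G : 𝕜 := φ (WithLp.toLp 2 (u, (0 : 𝕜))) with hG
    have e1 : φ (WithLp.toLp 2 ((starRingEnd 𝕜 G) • u, starRingEnd 𝕜 s)) =
        ((‖G‖ ^ 2 + ‖s‖ ^ 2 : ℝ) : 𝕜) := by
      have : (WithLp.toLp 2 ((starRingEnd 𝕜 G) • u, starRingEnd 𝕜 s) : Z 𝕜 Y) =
          (starRingEnd 𝕜 G) • WithLp.toLp 2 (u, (0 : 𝕜)) + (starRingEnd 𝕜 s) • p 𝕜 Y := by
        unfold p
        refine zext ?_ ?_ <;> simp
      rw [this, map_add, map_smul, map_smul, ← hG, ← hs, smul_eq_mul, smul_eq_mul,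
        RCLike.conj_mul, RCLike.conj_mul]
      push_cast
      rfl
    have e2 : ‖(WithLp.toLp 2 ((starRingEnd 𝕜 G) • u, starRingEnd 𝕜 s) : Z 𝕜 Y)‖ ^ 2 ≤
        ‖G‖ ^ 2 + ‖s‖ ^ 2 := by
      rw [norm_sq]
      simp only [WithLp.toLp_fst, WithLp.toLp_snd, norm_smul, RCLike.norm_conj]
      have := norm_nonneg u
      have h7 : ‖u‖ ^ 2 ≤ 1 := by nlinarith
      have h8 : (‖G‖ * ‖u‖) ^ 2 = ‖G‖ ^ 2 * ‖u‖ ^ 2 := by ring
      rw [h8]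
      nlinarith [sq_nonneg ‖G‖]
    have e3 := φ.le_opNorm (WithLp.toLp 2 ((starRingEnd 𝕜 G) • u, starRingEnd 𝕜 s))
    rw [e1, RCLike.norm_ofReal, abs_of_nonneg (by positivity)] at e3
    set N := ‖(WithLp.toLp 2 ((starRingEnd 𝕜 G) • u, starRingEnd 𝕜 s) : Z 𝕜 Y)‖ with hN
    have hN0 : 0 ≤ N := norm_nonneg _
    have e4 : ‖G‖ ^ 2 + ‖s‖ ^ 2 ≤ N := e3.trans (by nlinarith [norm_nonneg φ])
    by_contra hcon
    push Not at hcon
    nlinarith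
  have hs1 : 1 - r ^ 2 / 8 < RCLike.re s := h2
  have hs2 : RCLike.re s ≤ ‖s‖ := RCLike.re_le_norm s
  have hr2 : r ^ 2 ≤ 1 := by nlinarith
  have hs3 : 1 - r ^ 2 / 4 ≤ ‖s‖ ^ 2 := by
    have : 0 < 1 - r ^ 2 / 8 := by linarith
    nlinarith
  have hs4 : ‖s‖ ^ 2 ≤ 1 := by
    have := hkey 0 (by simp)
    nlinarith [sq_nonneg ‖φ (WithLp.toLp 2 ((0 : Y), (0 : 𝕜)))‖]
  have hs5 : ‖s - 1‖ ≤ r / 2 := by
    refine le_of_sq_le_sq ?_ (by linarith)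
    rw [norm_sub_one_sq]
    nlinarith
  have hg : ∀ u : Y, ‖φ (WithLp.toLp 2 (u, (0 : 𝕜)))‖ ≤ r / 2 * ‖u‖ := by
    intro u
    by_cases hu : u = 0
    · subst hu
      have : (WithLp.toLp 2 ((0 : Y), (0 : 𝕜)) : Z 𝕜 Y) = 0 := rfl
      rw [this]
      simp
    · have hu0 : 0 < ‖u‖ := norm_pos_iff.2 hu
      have h := hkey (((‖u‖⁻¹ : ℝ) : 𝕜) • u) (by
        rw [norm_smul, RCLike.norm_ofReal, abs_of_nonneg (by positivity),
          inv_mul_cancel₀ hu0.ne'])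
      have e5 : (WithLp.toLp 2 (((‖u‖⁻¹ : ℝ) : 𝕜) • u, (0 : 𝕜)) : Z 𝕜 Y) =
          ((‖u‖⁻¹ : ℝ) : 𝕜) • WithLp.toLp 2 (u, (0 : 𝕜)) := by
        refine zext ?_ ?_ <;> simp
      rw [e5, map_smul, norm_smul, RCLike.norm_ofReal, abs_of_nonneg (by positivity)] at h
      have h9 : ‖u‖⁻¹ * ‖φ (WithLp.toLp 2 (u, (0 : 𝕜)))‖ ≤ r / 2 := by
        refine le_of_sq_le_sq ?_ (by linarith)
        nlinarith
      rw [inv_mul_le_iff₀ hu0] at h9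
      linarith
  refine ContinuousLinearMap.opNorm_le_bound _ hr.le fun z => ?_
  have e6 : (φ - q 𝕜 Y) z = φ (WithLp.toLp 2 (z.fst, (0 : 𝕜))) + (s - 1) * z.snd := by
    have : z = WithLp.toLp 2 (z.fst, (0 : 𝕜)) + z.snd • p 𝕜 Y := by
      unfold p
      refine zext ?_ ?_ <;> simp
    have e7 : φ z = φ (WithLp.toLp 2 (z.fst, (0 : 𝕜))) + z.snd * s := by
      conv_lhs => rw [this]
      rw [map_add, map_smul, smul_eq_mul]
    rw [sub_apply, q_apply, e7]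
    ring
  rw [e6]
  have h10 := WithLp.norm_fst_le _ z
  have h11 := WithLp.norm_snd_le _ z
  calc _ ≤ ‖φ (WithLp.toLp 2 (z.fst, (0 : 𝕜)))‖ + ‖(s - 1) * z.snd‖ := norm_add_le _ _
    _ ≤ r / 2 * ‖z.fst‖ + r / 2 * ‖z.snd‖ := by
      rw [norm_mul]
      exact add_le_add (hg _) (mul_le_mul_of_nonneg_right hs5 (norm_nonneg _))
    _ ≤ r * ‖z‖ := by nlinarith

lemma Ts_eq : Ts 𝕜 (Z 𝕜 Y) = 0 := by
  refine le_antisymm (le_of_forall_pos_le_add fun r hr => ?_) ?_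
  · rw [zero_add]
    exact csInf_le ⟨0, fun s hs => hs.1.le⟩ ⟨hr, p 𝕜 Y, norm_p, q 𝕜 Y, norm_q, r ^ 2 / 2,
      by positivity, slice_small hr⟩
  · exact Real.sInf_nonneg fun s hs => hs.1.le

lemma Tsw_eq : Tsw 𝕜 (Z 𝕜 Y) = 0 := by
  refine le_antisymm (le_of_forall_pos_le_add fun r hr => ?_) ?_
  · rw [zero_add]
    have hm : 0 < min r 1 := lt_min hr one_pos
    have h : Tsw 𝕜 (Z 𝕜 Y) ≤ min r 1 := csInf_le ⟨0, fun s hs => hs.1.le⟩ ⟨hm, q 𝕜 Y, norm_q,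
      p 𝕜 Y, norm_p, (min r 1) ^ 2 / 8, by positivity, wslice_small hm (min_le_right _ _)⟩
    exact h.trans (min_le_left _ _)
  · exact Real.sInf_nonneg fun s hs => hs.1.le

end Index

section Perturb

variable {𝕜 : Type*} [RCLike 𝕜] {X : Type*} [NormedAddCommGroup X] [NormedSpace 𝕜 X]

/-- If a weakly compact operator has `‖T + I‖ < 1`, the unit ball is weakly compact. -/
lemma ball_compact [CompleteSpace X] {T : X →L[𝕜] X} (hT : WeaklyCompact T)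
    (h : ‖T + ContinuousLinearMap.id 𝕜 X‖ < 1) :
    ∃ K : Set (WeakSpace 𝕜 X), IsCompact K ∧
      toWeakSpace 𝕜 X '' Metric.closedBall (0 : X) 1 ⊆ K := by
  have h1 : IsUnit (1 - (T + ContinuousLinearMap.id 𝕜 X)) :=
    isUnit_one_sub_of_norm_lt_one h
  have h2 : 1 - (T + ContinuousLinearMap.id 𝕜 X) = -T := by
    have : (1 : X →L[𝕜] X) = ContinuousLinearMap.id 𝕜 X := rfl
    rw [this]
    abel
  rw [h2] at h1
  obtain ⟨S, hS⟩ := (IsUnit.neg_iff T).1 h1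
  have hinv : ∀ x, (↑S⁻¹ : X →L[𝕜] X) (T x) = x := by
    intro x
    rw [← hS]
    exact congrArg (fun R : X →L[𝕜] X => R x) S.inv_mul
  refine ⟨(WeakSpace.map (↑S⁻¹ : X →L[𝕜] X)) '' closure (toWeakSpace 𝕜 X ''
    (T '' Metric.closedBall (0 : X) 1)), hT.image (WeakSpace.map _).continuous, ?_⟩
  rintro _ ⟨x, hx, rfl⟩
  exact ⟨toWeakSpace 𝕜 X (T x), subset_closure ⟨T x, ⟨x, hx, rfl⟩, rfl⟩, hinv x⟩

end Perturb

section ell

variable {𝕜 : Type*} [RCLike 𝕜]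

variable (𝕜) in
/-- The space `ℓ₁`. -/
abbrev L : Type _ := lp (fun _ : ℕ => 𝕜) 1

variable (𝕜) in
/-- The unit vectors. -/
noncomputable def e (i : ℕ) : L 𝕜 := lp.single 1 i (1 : 𝕜)

lemma norm_e (i : ℕ) : ‖e 𝕜 i‖ = 1 := by
  unfold e
  rw [lp.norm_single one_pos, norm_one]

lemma e_apply_ne {i j : ℕ} (h : j ≠ i) : (e 𝕜 i : ℕ → 𝕜) j = 0 := by
  unfold e
  simp [lp.single_apply, Pi.single_eq_of_ne h]

lemma e_apply_self (i : ℕ) : (e 𝕜 i : ℕ → 𝕜) i = 1 := by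
  unfold e
  simp

lemma summable_norm (x : L 𝕜) : Summable fun i => ‖x i‖ := by
  have := (lp.memℓp x).summable (by simp)
  simpa using this

lemma norm_eq (x : L 𝕜) : ‖x‖ = ∑' i, ‖x i‖ := by
  have := lp.norm_eq_tsum_rpow (p := 1) (by simp) x
  simpa using this

variable (𝕜) in
/-- The sum functional on `ℓ₁`. -/
noncomputable def sm : StrongDual 𝕜 (L 𝕜) :=
  LinearMap.mkContinuous
    { toFun := fun x => ∑' i, x i
      map_add' := fun x y => by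
        have h : ∀ i, (x + y : L 𝕜) i = x i + y i := fun i => by
          rw [lp.coeFn_add, Pi.add_apply]
        simp only [h]
        exact (summable_norm x).of_norm.tsum_add (summable_norm y).of_norm
      map_smul' := fun c x => by
        have h : ∀ i, (c • x : L 𝕜) i = c * x i := fun i => by
          rw [lp.coeFn_smul, Pi.smul_apply, smul_eq_mul]
        simp only [h, RingHom.id_apply, smul_eq_mul]
        exact tsum_mul_left } 1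
    (fun x => by
      simp only [LinearMap.coe_mk, AddHom.coe_mk]
      rw [norm_eq, one_mul]
      exact norm_tsum_le_tsum_norm (summable_norm x))

lemma sm_e (i : ℕ) : sm 𝕜 (e 𝕜 i) = 1 := by
  have : sm 𝕜 (e 𝕜 i) = ∑' j, (e 𝕜 i : ℕ → 𝕜) j := rfl
  exact this.trans ((tsum_eq_single (f := fun j => (e 𝕜 i : ℕ → 𝕜) j) i
    fun j hj => e_apply_ne hj).trans (e_apply_self i))

lemma sm_eq_zero {x : L 𝕜} (h : ∀ i, x i = 0) : sm 𝕜 x = 0 := by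
  have : sm 𝕜 x = ∑' j, x j := rfl
  rw [this]
  simp [h]

variable (𝕜) in
/-- The coordinate functionals on `ℓ₁`. -/
noncomputable def co (i : ℕ) : StrongDual 𝕜 (L 𝕜) :=
  LinearMap.mkContinuous
    { toFun := fun x => x i
      map_add' := fun x y => by rw [lp.coeFn_add, Pi.add_apply]
      map_smul' := fun c x => by
        rw [lp.coeFn_smul, Pi.smul_apply, RingHom.id_apply] } 1
    (fun x => by
      simp only [LinearMap.coe_mk, AddHom.coe_mk, one_mul]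
      exact lp.norm_apply_le_norm one_ne_zero x i)

lemma co_apply (i : ℕ) (x : L 𝕜) : co 𝕜 i x = x i := rfl

lemma cluster_eval {E : Type*} [NormedAddCommGroup E] [NormedSpace 𝕜 E] (x : ℕ → E)
    (z : WeakSpace 𝕜 E) (hz : MapClusterPt z atTop (fun n => toWeakSpace 𝕜 E (x n)))
    (f : StrongDual 𝕜 E) :
    MapClusterPt (f ((toWeakSpace 𝕜 E).symm z)) atTop (fun n => f (x n)) := by
  have hc : @Continuous (WeakSpace 𝕜 E) 𝕜 _ _
      (fun w : WeakSpace 𝕜 E => f ((toWeakSpace 𝕜 E).symm w)) :=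
    WeakBilin.eval_continuous (topDualPairing 𝕜 E).flip f
  exact hz.continuousAt_comp (f := fun w : WeakSpace 𝕜 E => f ((toWeakSpace 𝕜 E).symm w))
    (@Continuous.continuousAt (WeakSpace 𝕜 E) 𝕜 _ _ _ z hc)

/-- The unit ball of `ℓ₁ ⊕₂ 𝕜` is not relatively weakly compact. -/
lemma not_compact (K : Set (WeakSpace 𝕜 (Z 𝕜 (L 𝕜)))) (hK : IsCompact K)
    (h : toWeakSpace 𝕜 (Z 𝕜 (L 𝕜)) '' Metric.closedBall (0 : Z 𝕜 (L 𝕜)) 1 ⊆ K) : False := by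
  set x : ℕ → WeakSpace 𝕜 (Z 𝕜 (L 𝕜)) := fun n =>
    toWeakSpace 𝕜 (Z 𝕜 (L 𝕜)) (WithLp.toLp 2 (e 𝕜 n, (0 : 𝕜))) with hx
  have hxK : ∀ n, x n ∈ K := fun n => h ⟨_, by
    rw [mem_closedBall_zero_iff]
    have : ‖(WithLp.toLp 2 (e 𝕜 n, (0 : 𝕜)) : Z 𝕜 (L 𝕜))‖ = ‖e 𝕜 n‖ :=
      WithLp.norm_toLp_fst 2 (L 𝕜) 𝕜 (e 𝕜 n)
    rw [this, norm_e], rfl⟩
  obtain ⟨z, -, hz⟩ := hK.exists_mapClusterPt_of_frequently
    (l := atTop) (f := x) (Frequently.of_forall hxK)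
  have hev := fun f : StrongDual 𝕜 (Z 𝕜 (L 𝕜)) => cluster_eval _ z hz f
  set w : Z 𝕜 (L 𝕜) := (toWeakSpace 𝕜 (Z 𝕜 (L 𝕜))).symm z with hw
  have hconst : ∀ (f : StrongDual 𝕜 (L 𝕜)) (c : 𝕜), (∀ᶠ n in atTop, f (e 𝕜 n) = c) →
      f w.fst = c := by
    intro f c hf
    have h1 := hev (f.comp (WithLp.fstL 2 𝕜 (L 𝕜) 𝕜))
    have h2 : Tendsto (fun n => (f.comp (WithLp.fstL 2 𝕜 (L 𝕜) 𝕜))
        (WithLp.toLp 2 (e 𝕜 n, (0 : 𝕜)))) atTop (𝓝 c) := by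
      refine tendsto_const_nhds.congr' ?_
      filter_upwards [hf] with n hn
      exact hn.symm
    exact eq_of_nhds_neBot (ClusterPt.mono h1 h2)
  have h0 : ∀ i, (w.fst : ℕ → 𝕜) i = 0 := fun i => hconst (co 𝕜 i) 0 (by
    filter_upwards [eventually_gt_atTop i] with n hn
    exact e_apply_ne hn.ne)
  have h1 : sm 𝕜 w.fst = 1 := hconst (sm 𝕜) 1 (Eventually.of_forall fun n => sm_e n)
  rw [sm_eq_zero h0] at h1
  exact zero_ne_one h1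

end ell

section final

variable (𝕜 : Type) [RCLike 𝕜]

/-- The norm one projection `(u,t) ↦ (0,t)`. -/
noncomputable def P : Z 𝕜 (L 𝕜) →L[𝕜] Z 𝕜 (L 𝕜) := (q 𝕜 (L 𝕜)).smulRight (p 𝕜 (L 𝕜))

lemma norm_P : ‖P 𝕜‖ = 1 := by
  unfold P
  rw [ContinuousLinearMap.norm_smulRight_apply, norm_q, norm_p, one_mul]

lemma P_compact : WeaklyCompact (P 𝕜) := by
  have h1 : IsCompact (Metric.closedBall (0 : 𝕜) 1) := isCompact_closedBall _ _
  have hc : Continuous fun t : 𝕜 => toWeakSpaceCLM 𝕜 (Z 𝕜 (L 𝕜)) (t • p 𝕜 (L 𝕜)) :=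
    (toWeakSpaceCLM 𝕜 _).continuous.comp (continuous_id.smul continuous_const)
  refine (h1.image hc).closure_of_subset ?_
  rintro _ ⟨_, ⟨z, hz, rfl⟩, rfl⟩
  refine ⟨q 𝕜 (L 𝕜) z, ?_, rfl⟩
  rw [mem_closedBall_zero_iff] at hz ⊢
  exact (WithLp.norm_snd_le _ z).trans hz

lemma one_le_W : 1 ≤ W 𝕜 (Z 𝕜 (L 𝕜)) := by
  refine le_csInf ⟨_, P 𝕜, norm_P 𝕜, P_compact 𝕜, rfl⟩ ?_
  rintro _ ⟨T, -, hT, rfl⟩
  by_contra hcon
  push Not at hcon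
  obtain ⟨K, hK, hK2⟩ := ball_compact hT hcon
  exact not_compact K hK hK2

/-- Over `𝕜 = ℝ` or `ℂ` there is a Banach space `X` both of whose slice indices `T^s(X)` and
`T^s_{w*}(X*)` vanish while `‖T + I‖ ≥ 1` for every weakly compact operator `T` of norm one, so
`W(X) ≠ max {T^s(X), T^s_{w*}(X*)}`. -/
theorem result :
    ∃ (X : Type) (_ : NormedAddCommGroup X) (_ : NormedSpace 𝕜 X) (_ : CompleteSpace X)
      (_ : Nontrivial X), Ts 𝕜 X = 0 ∧ Tsw 𝕜 X = 0 ∧ 1 ≤ W 𝕜 X ∧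
        max (Ts 𝕜 X) (Tsw 𝕜 X) < W 𝕜 X := by
  refine ⟨Z 𝕜 (L 𝕜), inferInstance, inferInstance, inferInstance,
    ⟨p 𝕜 (L 𝕜), 0, fun h => ?_⟩, Ts_eq, Tsw_eq, one_le_W 𝕜, ?_⟩
  · have := norm_p (𝕜 := 𝕜) (Y := L 𝕜)
    rw [h, norm_zero] at this
    exact zero_ne_one this
  · rw [Ts_eq, Tsw_eq, max_self]
    exact zero_lt_one.trans_le (one_le_W 𝕜)

end final

end Pool.Agent.Results.MP_2c23da_an.WeakCompactIndex
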